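import Pool.Agent.R979.MD.Stm

set_option autoImplicit false

open MeasureTheory Set Filter Topology

namespace Pool.Agent.R979.MD

theorem dy_eq_of_floor {n : ℕ} {x y : ℝ} (h : ⌊(2 : ℝ) ^ n * x⌋ = ⌊(2 : ℝ) ^ n * y⌋) :
    dy n x = dy n y := by
  unfold dy
  rw [h]

theorem mem_II_iff (n k : ℕ) (x : ℝ) : x ∈ II n k ↔ ⌊(2 : ℝ) ^ n * x⌋ = (k : ℤ) := by
  have h2 : (0 : ℝ) < 2 ^ n := by positivity
  unfold II
  rw [Int.floor_eq_iff, mem_Ico, div_le_iff₀ h2, lt_div_iff₀ h2]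
  push_cast
  rw [mul_comm x]

theorem dy_eq_II {n k : ℕ} {x : ℝ} (h : x ∈ II n k) : dy n x = II n k := by
  rw [mem_II_iff] at h
  unfold dy II
  rw [h]
  push_cast
  rfl

theorem floor_coarse {m n : ℕ} (hmn : m ≤ n) {x y : ℝ}
    (h : ⌊(2 : ℝ) ^ n * x⌋ = ⌊(2 : ℝ) ^ n * y⌋) : ⌊(2 : ℝ) ^ m * x⌋ = ⌊(2 : ℝ) ^ m * y⌋ := by
  obtain ⟨d, rfl⟩ := Nat.exists_eq_add_of_le hmn
  have hd : (0 : ℝ) < 2 ^ d := by positivity
  symm
  rw [Int.floor_eq_iff]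
  set a : ℤ := ⌊(2 : ℝ) ^ m * x⌋ with ha
  have h1 : (a : ℝ) ≤ 2 ^ m * x := Int.floor_le _
  have h2 : (2 : ℝ) ^ m * x < a + 1 := Int.lt_floor_add_one _
  have e : ∀ z : ℝ, (2 : ℝ) ^ (m + d) * z = (2 ^ m * z) * 2 ^ d := by
    intro z
    rw [pow_add]
    ring
  have h3 : a * 2 ^ d ≤ ⌊(2 : ℝ) ^ (m + d) * x⌋ := by
    rw [Int.le_floor, e]
    push_cast
    exact mul_le_mul_of_nonneg_right h1 hd.le
  have h4 : ⌊(2 : ℝ) ^ (m + d) * x⌋ < (a + 1) * 2 ^ d := by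
    rw [Int.floor_lt, e]
    push_cast
    exact mul_lt_mul_of_pos_right h2 hd
  rw [h] at h3 h4
  rw [Int.le_floor, e] at h3
  rw [Int.floor_lt, e] at h4
  push_cast at h3 h4
  exact ⟨le_of_mul_le_mul_right h3 hd, lt_of_mul_lt_mul_right h4 hd.le⟩

theorem exists_II {n : ℕ} {x : ℝ} (hx : x ∈ Ico (0 : ℝ) 1) : ∃ k < 2 ^ n, x ∈ II n k := by
  have h2 : (0 : ℝ) < 2 ^ n := by positivity
  have h0 : 0 ≤ ⌊(2 : ℝ) ^ n * x⌋ := Int.floor_nonneg.mpr (mul_nonneg h2.le hx.1)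
  have h1 : ⌊(2 : ℝ) ^ n * x⌋ < 2 ^ n := by
    rw [Int.floor_lt]
    push_cast
    calc (2 : ℝ) ^ n * x < 2 ^ n * 1 := mul_lt_mul_of_pos_left hx.2 h2
      _ = 2 ^ n := mul_one _
  obtain ⟨k, hk⟩ := Int.eq_ofNat_of_zero_le h0
  refine ⟨k, ?_, ?_⟩
  · rw [hk] at h1
    exact_mod_cast h1
  · rw [mem_II_iff]
    exact hk

theorem measurable_dy (μ : Measure ℝ) (n : ℕ) : Measurable (fun x => μ (dy n x)) := by
  have h : (fun x => μ (dy n x)) = (fun z : ℤ => μ (Ico ((z : ℝ) / 2 ^ n) (((z : ℝ) + 1) / 2 ^ n))) ∘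
      (fun x : ℝ => ⌊(2 : ℝ) ^ n * x⌋) := by
    funext x
    rfl
  rw [h]
  exact measurable_from_top.comp (Int.measurable_floor.comp (measurable_const_mul _))

theorem II_subset {n k : ℕ} (hk : k < 2 ^ n) : II n k ⊆ Ico (0 : ℝ) 1 := by
  intro x hx
  have h2 : (0 : ℝ) < 2 ^ n := by positivity
  unfold II at hx
  refine ⟨le_trans (by positivity) hx.1, lt_of_lt_of_le hx.2 ?_⟩
  rw [div_le_one h2]
  exact_mod_cast hk

theorem measurableSet_II (n k : ℕ) : MeasurableSet (II n k) := measurableSet_Ico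

end Pool.Agent.R979.MD
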